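import Pool.Agent.Helper4.BT.Defs2

/-!
# Re-export of the definitions of the FE blocks (q1, SS), see Helper4/BT/Defs2
-/
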