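import Pool.Agent.Helper12.BT.LAP
import Pool.Agent.Helper4.BT.Defs2
import Pool.Agent.Helper83.BT.CHI

/-!
# FEQ : pointwise majorant of the source of the outer field of the second bubble
-/

namespace Pool.Helper4.BT
open MeasureTheory Metric Set Laplacian InnerProductSpace

theorem FEQ_abs_mul_self (a b : ℝ) : |(|a| * a) - (|b| * b)| ≤ |a - b| * (|a| + |b|) := by
  rcases le_total 0 a with ha | ha <;> rcases le_total 0 b with hb | hb
  · rw [abs_of_nonneg ha, abs_of_nonneg hb]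
    have : a * a - b * b = (a - b) * (a + b) := by ring
    rw [this, abs_mul, abs_of_nonneg (by linarith : 0 ≤ a + b)]
  · rw [abs_of_nonneg ha, abs_of_nonpos hb, abs_of_nonneg (by nlinarith : 0 ≤ a * a - -b * b),
      abs_of_nonneg (by linarith : 0 ≤ a - b)]
    nlinarith
  · rw [abs_of_nonpos ha, abs_of_nonneg hb, abs_of_nonpos (by nlinarith : -a * a - b * b ≤ 0),
      abs_of_nonpos (by linarith : a - b ≤ 0)]
    nlinarith
  · rw [abs_of_nonpos ha, abs_of_nonpos hb]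
    have : -a * a - -b * b = (b - a) * (a + b) := by ring
    rw [this, abs_mul, abs_of_nonpos (by linarith : a + b ≤ 0), abs_sub_comm b a]
    apply le_of_eq; ring

theorem FEQ_U_nonneg {μ : ℝ} (hμ : 0 < μ) (z x : E) : 0 ≤ U μ z x := by
  have := A_pos hμ z x
  unfold U; positivity

theorem FEQ_DD_le {k : ℕ} {Λ R C3 τ ω : ℝ} {p : E} {u : E → ℝ} {lam : ℝ} {mu : ℕ → ℝ}
    {z : ℕ → E} {sg : ℕ → ℝ} (h : Conf k Λ R C3 τ ω p u lam mu z sg) : DD mu z ≤ 3 * ω := by
  have h0 : 0 < mu 0 := h.hmu 0 (by have := h.hk; omega)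
  have hz0 := h.hz 0 (by have := h.hk; omega)
  have hz1 := h.hz 1 (by have := h.hk; omega)
  have h01 : ‖z 0 - z 1‖ ≤ 2 * ω := by
    have e : z 0 - z 1 = (z 0 - p) - (z 1 - p) := by abel
    rw [e]
    have := norm_sub_le (z 0 - p) (z 1 - p)
    linarith
  have hω := h.hω.1
  unfold DD
  rw [Real.sqrt_le_left (by linarith)]
  have a1 : mu 0 ^ 2 ≤ ω ^ 2 := pow_le_pow_left₀ h0.le h.hmu0 2
  have a2 : ‖z 0 - z 1‖ ^ 2 ≤ (2 * ω) ^ 2 := pow_le_pow_left₀ (norm_nonneg _) h01 2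
  nlinarith

theorem FEQ_point (Λ c lam u U0 P W kk Q sg0 : ℝ) (hlam : 0 ≤ lam) (hΛ : lam ≤ Λ) (hc : 1 ≤ c)
    (hU0 : 0 ≤ U0) (hP : 0 ≤ P) (hW0 : 0 ≤ W) (hsg : sg0 = 1 ∨ sg0 = -1)
    (hu : |u| ≤ c * (1 + U0 + P)) (hW : W ≤ |u| + U0 + P)
    (hψ : |u - sg0 * U0| ≤ P + W) (hPQ : P ^ 2 ≤ kk * Q) (hQ : 0 ≤ Q) (hk : 0 ≤ kk) :
    |nl lam u - sg0 * U0 ^ 2|
      ≤ (|Λ| * |c| + 16 * c ^ 2 + 4 * |c| + 2) * (kk + 1)
        * ((1 + (U0 + P) + Q) + U0 * P + U0 * W) := by
  have hcabs : |c| = c := abs_of_nonneg (by linarith)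
  have hΛabs : |Λ| = Λ := abs_of_nonneg (by linarith)
  rw [hcabs, hΛabs]
  have hb : |sg0 * U0| * (sg0 * U0) = sg0 * U0 ^ 2 := by
    rcases hsg with h | h <;> rw [h]
    · rw [one_mul, abs_of_nonneg hU0]; ring
    · rw [neg_one_mul, abs_neg, abs_of_nonneg hU0]; ring
  have hbU : |sg0 * U0| = U0 := by
    rcases hsg with h | h <;> rw [h]
    · rw [one_mul, abs_of_nonneg hU0]
    · rw [neg_one_mul, abs_neg, abs_of_nonneg hU0]
  have h1 : |nl lam u - sg0 * U0 ^ 2| ≤ lam * |u| + |u - sg0 * U0| * (|u| + U0) := by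
    have e : nl lam u - sg0 * U0 ^ 2 = lam * u + (|u| * u - |sg0 * U0| * (sg0 * U0)) := by
      rw [hb]; unfold nl; ring
    rw [e]
    refine (abs_add_le _ _).trans ?_
    have a1 := FEQ_abs_mul_self u (sg0 * U0)
    rw [hbU] at a1
    rw [hbU]
    rw [abs_mul, abs_of_nonneg hlam]
    linarith
  have huU : |u| ≤ U0 + (P + W) := by
    have : |u| ≤ |u - sg0 * U0| + |sg0 * U0| := by
      have := abs_add_le (u - sg0 * U0) (sg0 * U0)
      simpa using this
    rw [hbU] at this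
    linarith
  have h2 : |u - sg0 * U0| * (|u| + U0) ≤ (P + W) * (2 * U0 + (P + W)) := by
    apply mul_le_mul hψ (by linarith) (by positivity) (by positivity)
  have hW1 : W ≤ 2 * c * (1 + U0 + P) := by
    have h0 : 0 ≤ (c - 1) * (1 + U0 + P) := mul_nonneg (by linarith) (by linarith)
    linarith
  have hW2 : W ^ 2 ≤ 2 * c * (2 * c * (1 + U0 + P) + U0 * W + 2 * c * (P + U0 * P + P ^ 2)) := by
    have a1 : W * W ≤ W * (2 * c * (1 + U0 + P)) := mul_le_mul_of_nonneg_left hW1 hW0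
    have a2 : P * W ≤ P * (2 * c * (1 + U0 + P)) := mul_le_mul_of_nonneg_left hW1 hP
    have a3 : W * (2 * c * (1 + U0 + P)) = 2 * c * (W + U0 * W + P * W) := by ring
    have a4 : W + U0 * W + P * W ≤ 2 * c * (1 + U0 + P) + U0 * W + 2 * c * (P + U0 * P + P ^ 2) := by
      linarith
    have a5 := mul_le_mul_of_nonneg_left a4 (by linarith : 0 ≤ 2 * c)
    rw [sq]
    linarith
  have h3 : lam * |u| ≤ Λ * (c * (1 + U0 + P)) :=
    mul_le_mul hΛ hu (abs_nonneg _) (hlam.trans hΛ)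
  have hΛ0 : 0 ≤ Λ := hlam.trans hΛ
  have h4 : (P + W) * (2 * U0 + (P + W)) ≤ 2 * (U0 * P) + 2 * (U0 * W) + 2 * P ^ 2 + 2 * W ^ 2 := by
    have h0 := sq_nonneg (P - W)
    linarith
  have hUP : 0 ≤ U0 * P := mul_nonneg hU0 hP
  have hUW : 0 ≤ U0 * W := mul_nonneg hU0 hW0
  set K0 := Λ * c + 16 * c ^ 2 + 4 * c + 2 with hK0
  have hK0nn : 0 ≤ K0 := by positivity
  have hΛc : 0 ≤ Λ * c := by positivity
  have hc2 : 0 ≤ c ^ 2 := by positivity
  -- total before introducing k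
  have h5 : |nl lam u - sg0 * U0 ^ 2| ≤ K0 * (1 + (U0 + P)) + K0 * P ^ 2 + K0 * (U0 * P)
      + K0 * (U0 * W) := by
    have b1 : |nl lam u - sg0 * U0 ^ 2| ≤ (Λ * c + 8 * c ^ 2) * (1 + (U0 + P)) + 8 * c ^ 2 * P
        + (2 + 8 * c ^ 2) * (U0 * P) + (2 + 4 * c) * (U0 * W) + (2 + 8 * c ^ 2) * P ^ 2 := by
      linarith
    have b2 : 8 * c ^ 2 * P ≤ 8 * c ^ 2 * (1 + (U0 + P)) :=
      mul_le_mul_of_nonneg_left (by linarith) (by positivity)
    have b3 : (Λ * c + 16 * c ^ 2) * (1 + (U0 + P)) ≤ K0 * (1 + (U0 + P)) :=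
      mul_le_mul_of_nonneg_right (by rw [hK0]; linarith) (by positivity)
    have b4 : (2 + 8 * c ^ 2) * (U0 * P) ≤ K0 * (U0 * P) :=
      mul_le_mul_of_nonneg_right (by rw [hK0]; linarith) hUP
    have b5 : (2 + 4 * c) * (U0 * W) ≤ K0 * (U0 * W) :=
      mul_le_mul_of_nonneg_right (by rw [hK0]; linarith) hUW
    have b6 : (2 + 8 * c ^ 2) * P ^ 2 ≤ K0 * P ^ 2 :=
      mul_le_mul_of_nonneg_right (by rw [hK0]; linarith) (by positivity)
    linarith
  have h6 : K0 * P ^ 2 ≤ K0 * (kk * Q) := mul_le_mul_of_nonneg_left hPQ hK0nn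
  have hkk : (1 : ℝ) ≤ kk + 1 := by linarith
  have h7 : K0 * (kk * Q) ≤ K0 * ((kk + 1) * Q) :=
    mul_le_mul_of_nonneg_left (mul_le_mul_of_nonneg_right (by linarith) hQ) hK0nn
  have h8 : K0 * (1 + (U0 + P)) ≤ K0 * ((kk + 1) * (1 + (U0 + P))) :=
    mul_le_mul_of_nonneg_left (le_mul_of_one_le_left (by linarith) hkk) hK0nn
  have h9 : K0 * (U0 * P) ≤ K0 * ((kk + 1) * (U0 * P)) :=
    mul_le_mul_of_nonneg_left (le_mul_of_one_le_left hUP hkk) hK0nn
  have h10 : K0 * (U0 * W) ≤ K0 * ((kk + 1) * (U0 * W)) :=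
    mul_le_mul_of_nonneg_left (le_mul_of_one_le_left hUW hkk) hK0nn
  calc |nl lam u - sg0 * U0 ^ 2| ≤ K0 * ((kk + 1) * (1 + (U0 + P))) + K0 * ((kk + 1) * Q)
        + K0 * ((kk + 1) * (U0 * P)) + K0 * ((kk + 1) * (U0 * W)) := by linarith
    _ = K0 * (kk + 1) * ((1 + (U0 + P) + Q) + U0 * P + U0 * W) := by ring

theorem q1_le : ∀ (k : ℕ) (Λ R C3 : ℝ), ∃ C : ℝ, 0 < C ∧ ∀ (τ ω : ℝ) (p : E) (u : E → ℝ)
    (lam : ℝ) (mu : ℕ → ℝ) (z : ℕ → E) (sg : ℕ → ℝ) (ρ : ℝ),
      Conf k Λ R C3 τ ω p u lam mu z sg → Rho1 k τ mu z ρ → ∀ y,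
      |q1 R p u lam mu z sg ρ y| ≤ C * (
        (SS R p (z 1) ρ).indicator (fun y => 1 + ∑ l ∈ Finset.range k, U (mu l) (z l) y
          + ∑ l ∈ Finset.Ico 1 k, U (mu l) (z l) y ^ 2) y
        + (SS R p (z 1) ρ).indicator (fun y =>
            U (mu 0) (z 0) y * ∑ l ∈ Finset.Ico 1 k, U (mu l) (z l) y) y
        + (SS R p (z 1) ρ).indicator (fun y =>
            U (mu 0) (z 0) y * |u y - bubbles k sg mu z y|) y
        + (closedBall (z 1) (2 * ρ)).indicator (fun y => U (mu 0) (z 0) y ^ 2) y) := by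
  intro k Λ R C3
  set C : ℝ := (|Λ| * |C3| + 16 * C3 ^ 2 + 4 * |C3| + 2) * (k + 1) with hC
  have hCnn : 0 < C := by positivity
  have hC1 : 1 ≤ C := by
    have h1 : (2 : ℝ) ≤ |Λ| * |C3| + 16 * C3 ^ 2 + 4 * |C3| + 2 := by
      have : 0 ≤ |Λ| * |C3| := by positivity
      have : 0 ≤ C3 ^ 2 := sq_nonneg _
      have : 0 ≤ |C3| := abs_nonneg _
      linarith
    have h2 : (1 : ℝ) ≤ k + 1 := by have : (0 : ℝ) ≤ k := by positivity
                                    linarith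
    nlinarith
  refine ⟨C, hCnn, ?_⟩
  intro τ ω p u lam mu z sg ρ hcf hρ1 y
  have hk2 := hcf.hk
  have hmu := hcf.hmu
  have hρ : 0 < ρ := hρ1.pos
  have hω := hcf.hω
  have hωR := hcf.hωR
  have hR0 : 0 < R := hcf.hR.1
  have hDD : DD mu z ≤ 3 * ω := FEQ_DD_le hcf
  have hDD0 : 0 ≤ DD mu z := Real.sqrt_nonneg _
  have hρω : ρ ≤ ω := by
    have h1 := hρ1.le
    have h2 : τ * DD mu z ≤ (1 / 64) * (3 * ω) :=
      mul_le_mul hcf.hτ.2 hDD hDD0 (by norm_num)
    linarith
  have hz1 : ‖z 1 - p‖ ≤ ω := hcf.hz 1 (by omega)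
  have hU0 : 0 ≤ U (mu 0) (z 0) y := FEQ_U_nonneg (hmu 0 (by omega)) _ _
  have hUl : ∀ l ∈ Finset.Ico 1 k, 0 ≤ U (mu l) (z l) y := fun l hl =>
    FEQ_U_nonneg (hmu l (Finset.mem_Ico.1 hl).2) _ _
  set U0 := U (mu 0) (z 0) y with hU0def
  set P := ∑ l ∈ Finset.Ico 1 k, U (mu l) (z l) y with hPdef
  set Q := ∑ l ∈ Finset.Ico 1 k, U (mu l) (z l) y ^ 2 with hQdef
  set W := |u y - bubbles k sg mu z y| with hWdef
  have hP0 : 0 ≤ P := Finset.sum_nonneg hUl
  have hQ0 : 0 ≤ Q := Finset.sum_nonneg fun l _ => sq_nonneg _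
  have hW0 : 0 ≤ W := abs_nonneg _
  have hsplit : ∀ f : ℕ → ℝ, ∑ l ∈ Finset.range k, f l = f 0 + ∑ l ∈ Finset.Ico 1 k, f l := by
    intro f
    rw [Finset.range_eq_Ico, Finset.sum_eq_sum_Ico_succ_bot (by omega)]
  have hTri : ∀ y', ‖y' - p‖ ≤ ‖y' - z 1‖ + ω := by
    intro y'
    have e : y' - p = (y' - z 1) + (z 1 - p) := by abel
    rw [e]
    have := norm_add_le (y' - z 1) (z 1 - p)
    linarith
  have hlast : 0 ≤ (closedBall (z 1) (2 * ρ)).indicator (fun y => U (mu 0) (z 0) y ^ 2) y :=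
    indicator_nonneg (fun _ _ => sq_nonneg _) _
  by_cases hyR : y ∈ ball p R
  · by_cases hyρ : y ∈ ball (z 1) ρ
    · -- inside
      have hyn : ‖y - z 1‖ < ρ := by rwa [mem_ball, dist_eq_norm] at hyρ
      have hnot : y ∉ SS R p (z 1) ρ := fun h => h.2 hyρ
      have h1 : chi (z 1) ρ y = 1 := chi_eq_one hρ hyn.le
      have h2 : chi p (R / 2) y = 1 := by
        apply chi_eq_one (by linarith)
        have := hTri y
        linarith
      have h3 : y ∈ closedBall (z 1) (2 * ρ) := by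
        rw [mem_closedBall, dist_eq_norm]; linarith
      rw [indicator_of_notMem hnot, indicator_of_notMem hnot, indicator_of_notMem hnot,
        indicator_of_mem h3]
      unfold q1
      rw [h1, h2]
      have e : 1 * (nl lam (u y) - sg 0 * U (mu 0) (z 0) y ^ 2) - 1 * nl lam (u y)
          = -(sg 0 * U0 ^ 2) := by ring
      rw [e, abs_neg, abs_mul]
      have hs : |sg 0| = 1 := by
        rcases hcf.hsg 0 (by omega) with h | h <;> rw [h] <;> simp
      rw [hs, abs_of_nonneg (sq_nonneg _)]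
      have := sq_nonneg U0
      nlinarith
    · -- outer region
      have hSS : y ∈ SS R p (z 1) ρ := ⟨hyR, hyρ⟩
      rw [indicator_of_mem hSS, indicator_of_mem hSS, indicator_of_mem hSS]
      have hη0 := chi_nonneg p (R / 2) y
      have hη1 := chi_le_one p (R / 2) y
      have hχ0 := chi_nonneg (z 1) ρ y
      have hχ1 := chi_le_one (z 1) ρ y
      have hs : |sg 0| = 1 := by
        rcases hcf.hsg 0 (by omega) with h | h <;> rw [h] <;> simp
      have hstar := hcf.hstar y (ball_subset_closedBall hyR)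
      rw [hsplit] at hstar
      have hpt := FEQ_point Λ C3 lam (u y) U0 P W k Q (sg 0) hcf.hlam.1 hcf.hlam.2 hcf.hC3 hU0
        hP0 hW0 (hcf.hsg 0 (by omega))
        (by
          have e : 1 + (U (mu 0) (z 0) y + ∑ l ∈ Finset.Ico 1 k, U (mu l) (z l) y)
            = 1 + U0 + P := by rw [hU0def, hPdef]; ring
          rwa [e] at hstar)
        (by
          have h1 : |bubbles k sg mu z y| ≤ U0 + P := by
            unfold bubbles
            refine (Finset.abs_sum_le_sum_abs _ _).trans ?_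
            rw [hsplit]
            have h2 : ∀ l, l < k → |sg l * U (mu l) (z l) y| = U (mu l) (z l) y := by
              intro l hl
              rw [abs_mul, abs_of_nonneg (FEQ_U_nonneg (hmu l hl) _ _)]
              rcases hcf.hsg l hl with h | h <;> rw [h] <;> simp
            rw [h2 0 (by omega), Finset.sum_congr rfl fun l hl => h2 l (Finset.mem_Ico.1 hl).2]
          have h3 : W ≤ |u y| + |bubbles k sg mu z y| := abs_sub _ _
          linarith)
        (by
          have e : u y - sg 0 * U0 = (u y - bubbles k sg mu z y)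
              + ∑ l ∈ Finset.Ico 1 k, sg l * U (mu l) (z l) y := by
            unfold bubbles
            rw [hsplit]
            ring
          rw [e]
          have h1 : |∑ l ∈ Finset.Ico 1 k, sg l * U (mu l) (z l) y| ≤ P := by
            refine (Finset.abs_sum_le_sum_abs _ _).trans (Finset.sum_le_sum fun l hl => ?_)
            have hlk := (Finset.mem_Ico.1 hl).2
            rw [abs_mul, abs_of_nonneg (hUl l hl)]
            rcases hcf.hsg l hlk with h | h <;> rw [h] <;> simp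
          have := abs_add_le (u y - bubbles k sg mu z y)
            (∑ l ∈ Finset.Ico 1 k, sg l * U (mu l) (z l) y)
          linarith)
        (by
          have h1 := sq_sum_le_card_mul_sum_sq (s := Finset.Ico 1 k)
            (f := fun l => U (mu l) (z l) y)
          have h2 : ((Finset.Ico 1 k).card : ℝ) ≤ k := by
            have : (Finset.Ico 1 k).card ≤ k := by simp
            exact_mod_cast this
          exact h1.trans (mul_le_mul_of_nonneg_right h2 hQ0))
        hQ0 (by positivity)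
      have hq : q1 R p u lam mu z sg ρ y = (chi p (R / 2) y - chi (z 1) ρ y) *
          (nl lam (u y) - sg 0 * U0 ^ 2) - chi (z 1) ρ y * (sg 0 * U0 ^ 2) := by
        unfold q1; ring
      have h1 : |chi p (R / 2) y - chi (z 1) ρ y| ≤ 1 := abs_le.2 ⟨by linarith, by linarith⟩
      have h2 : |(chi p (R / 2) y - chi (z 1) ρ y) * (nl lam (u y) - sg 0 * U0 ^ 2)|
          ≤ |nl lam (u y) - sg 0 * U0 ^ 2| := by
        rw [abs_mul]
        exact mul_le_of_le_one_left (abs_nonneg _) h1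
      have h3 : |chi (z 1) ρ y * (sg 0 * U0 ^ 2)|
          ≤ (closedBall (z 1) (2 * ρ)).indicator (fun y => U (mu 0) (z 0) y ^ 2) y := by
        by_cases hin : y ∈ closedBall (z 1) (2 * ρ)
        · rw [indicator_of_mem hin, abs_mul, abs_mul, hs, abs_of_nonneg hχ0,
            abs_of_nonneg (sq_nonneg U0), one_mul]
          exact mul_le_of_le_one_left (sq_nonneg _) hχ1
        · have : chi (z 1) ρ y = 0 := by
            apply chi_eq_zero hρ
            rw [mem_closedBall, dist_eq_norm, not_le] at hin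
            exact hin.le
          rw [this, zero_mul, abs_zero]
          exact hlast
      have h4 : |q1 R p u lam mu z sg ρ y| ≤ |nl lam (u y) - sg 0 * U0 ^ 2|
          + (closedBall (z 1) (2 * ρ)).indicator (fun y => U (mu 0) (z 0) y ^ 2) y := by
        rw [hq]
        exact (abs_sub _ _).trans (add_le_add h2 h3)
      have h5 : (closedBall (z 1) (2 * ρ)).indicator (fun y => U (mu 0) (z 0) y ^ 2) y
          ≤ C * (closedBall (z 1) (2 * ρ)).indicator (fun y => U (mu 0) (z 0) y ^ 2) y :=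
        le_mul_of_one_le_left hlast hC1
      rw [hsplit]
      have h6 : C * ((1 + (U0 + P) + Q) + U0 * P + U0 * W
          + (closedBall (z 1) (2 * ρ)).indicator (fun y => U (mu 0) (z 0) y ^ 2) y)
          = C * ((1 + (U0 + P) + Q) + U0 * P + U0 * W)
          + C * (closedBall (z 1) (2 * ρ)).indicator (fun y => U (mu 0) (z 0) y ^ 2) y := by ring
      calc |q1 R p u lam mu z sg ρ y| ≤ C * ((1 + (U0 + P) + Q) + U0 * P + U0 * W)
          + C * (closedBall (z 1) (2 * ρ)).indicator (fun y => U (mu 0) (z 0) y ^ 2) y := by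
            linarith
        _ = _ := h6.symm
  · -- outside
    have hnot : y ∉ SS R p (z 1) ρ := fun h => hyR h.1
    have hyn : R ≤ ‖y - p‖ := by rwa [mem_ball, dist_eq_norm, not_lt] at hyR
    have h1 : chi p (R / 2) y = 0 := chi_eq_zero (by linarith) (by linarith)
    have h2 : chi (z 1) ρ y = 0 := by
      apply chi_eq_zero hρ
      have := hTri y
      linarith
    have hq : q1 R p u lam mu z sg ρ y = 0 := by unfold q1; rw [h1, h2]; ring
    rw [hq, abs_zero, indicator_of_notMem hnot, indicator_of_notMem hnot,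
      indicator_of_notMem hnot]
    have := mul_nonneg hCnn.le hlast
    linarith

end Pool.Helper4.BT
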