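import Pool.Agent.Helper4.BT.Defs

/-!
# LAP : calculus of the Laplacian (bubble towers in dimension six)
-/

namespace Pool.Helper4.BT
open MeasureTheory Metric Set Laplacian InnerProductSpace

theorem A_pos {μ : ℝ} (hμ : 0 < μ) (z x : E) : 0 < A μ z x := by
  unfold A; positivity

theorem contDiff_A (μ : ℝ) (z : E) {n : WithTop ℕ∞} : ContDiff ℝ n (A μ z) := by
  unfold A
  exact contDiff_const.add ((contDiff_id.sub contDiff_const).norm_sq ℝ)

/-- The Laplacian as a sum of second derivatives. -/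
theorem LAP_eq_sum (f : E → ℝ) (x : E) :
    (Δ f) x = ∑ i : Fin 6, fderiv ℝ (fderiv ℝ f) x (EuclideanSpace.single i 1)
      (EuclideanSpace.single i 1) := by
  rw [laplacian_eq_iteratedFDeriv_orthonormalBasis f (EuclideanSpace.basisFun (Fin 6) ℝ)]
  simp only [iteratedFDeriv_two_apply, EuclideanSpace.basisFun_apply]
  rfl

theorem LAP_hasFDerivAt_A (μ : ℝ) (z x : E) :
    HasFDerivAt (A μ z) ((2 : ℝ) • innerSL ℝ (x - z)) x := by
  have h1 : HasFDerivAt (fun y : E => y - z) (ContinuousLinearMap.id ℝ E) x :=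
    (hasFDerivAt_id x).sub_const z
  have h2 := h1.norm_sq
  have h3 := h2.const_add (μ ^ 2)
  refine h3.congr_fderiv ?_
  ext v
  simp

theorem LAP_fderiv_comp_A (φ : ℝ → ℝ) (μ : ℝ) (z x : E)
    (hφ : DifferentiableAt ℝ φ (A μ z x)) :
    fderiv ℝ (fun y => φ (A μ z y)) x
      = (2 * deriv φ (A μ z x)) • innerSL ℝ (x - z) := by
  have h := hφ.hasDerivAt.comp_hasFDerivAt x (LAP_hasFDerivAt_A μ z x)
  have h' : fderiv ℝ (fun y => φ (A μ z y)) x
      = deriv φ (A μ z x) • ((2 : ℝ) • innerSL ℝ (x - z)) := h.fderiv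
  rw [h', smul_smul, mul_comm]

theorem fderiv_comp_A (φ : ℝ → ℝ) (μ : ℝ) (z x v : E)
    (hφ : DifferentiableAt ℝ φ (A μ z x)) :
    fderiv ℝ (fun y => φ (A μ z y)) x v
      = deriv φ (A μ z x) * (2 * inner ℝ (x - z) v) := by
  rw [LAP_fderiv_comp_A φ μ z x hφ]
  simp only [_root_.smul_apply, innerSL_apply_apply, smul_eq_mul]
  ring

theorem LAP_sum_inner_sq (w : E) :
    ∑ i : Fin 6, (inner ℝ w (EuclideanSpace.single i (1 : ℝ))) ^ 2 = ‖w‖ ^ 2 := by
  rw [EuclideanSpace.norm_sq_eq]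
  refine Finset.sum_congr rfl fun i _ => ?_
  rw [EuclideanSpace.inner_single_right]
  simp

theorem lap_comp_A (φ : ℝ → ℝ) (μ : ℝ) (z x : E) (hφ : ContDiffAt ℝ 2 φ (A μ z x)) :
    (Δ (fun y => φ (A μ z y))) x
      = deriv (deriv φ) (A μ z x) * (4 * ‖x - z‖ ^ 2) + deriv φ (A μ z x) * 12 := by
  have hA : Continuous (A μ z) := (contDiff_A μ z (n := 0)).continuous
  -- nearby φ is differentiable
  have hev : ∀ᶠ a in nhds (A μ z x), DifferentiableAt ℝ φ a := by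
    have := (hφ.of_le (show (1 : WithTop ℕ∞) ≤ 2 by norm_num)).eventually (by simp)
    exact this.mono fun a ha => ha.differentiableAt (by norm_num)
  have hev' : ∀ᶠ y in nhds x, DifferentiableAt ℝ φ (A μ z y) :=
    hA.continuousAt.eventually hev
  have hfd : fderiv ℝ (fun y => φ (A μ z y)) =ᶠ[nhds x]
      fun y => (2 * deriv φ (A μ z y)) • innerSL ℝ (y - z) :=
    hev'.mono fun y hy => LAP_fderiv_comp_A φ μ z y hy
  have hd2 : DifferentiableAt ℝ (deriv φ) (A μ z x) := by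
    have h1 : ContDiffAt ℝ 1 (fderiv ℝ φ) (A μ z x) :=
      hφ.fderiv_right (m := 1) (by norm_num)
    have h2 : DifferentiableAt ℝ (fderiv ℝ φ) (A μ z x) := h1.differentiableAt (by norm_num)
    have h3 : deriv φ = fun a => fderiv ℝ φ a 1 := by
      ext a; rw [fderiv_apply_one_eq_deriv]
    rw [h3]
    exact h2.clm_apply (differentiableAt_const _)
  have hs : HasFDerivAt (fun y => 2 * deriv φ (A μ z y))
      ((2 : ℝ) • (deriv (deriv φ) (A μ z x) • ((2 : ℝ) • innerSL ℝ (x - z)))) x :=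
    (hd2.hasDerivAt.comp_hasFDerivAt x (LAP_hasFDerivAt_A μ z x)).const_mul 2
  let B : E →L[ℝ] E →L[ℝ] ℝ := innerSL ℝ
  have hi : HasFDerivAt (fun y : E => B (y - z)) B x := by
    have h1 : HasFDerivAt (fun y : E => y - z) (ContinuousLinearMap.id ℝ E) x :=
      (hasFDerivAt_id x).sub_const z
    have h2 := B.hasFDerivAt (x := x - z)
    have h3 := h2.comp x h1
    exact h3
  have hfd2 : fderiv ℝ (fderiv ℝ (fun y => φ (A μ z y))) x
      = fderiv ℝ (fun y => (2 * deriv φ (A μ z y)) • innerSL ℝ (y - z)) x :=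
    hfd.fderiv_eq
  have hkey : ∀ v : E, fderiv ℝ (fderiv ℝ (fun y => φ (A μ z y))) x v v
      = 4 * deriv (deriv φ) (A μ z x) * (inner ℝ (x - z) v) ^ 2
        + 2 * deriv φ (A μ z x) * ‖v‖ ^ 2 := by
    intro v
    have hsm : HasFDerivAt (fun y => (2 * deriv φ (A μ z y)) • innerSL ℝ (y - z))
        ((2 * deriv φ (A μ z x)) • B +
          ((2 : ℝ) • (deriv (deriv φ) (A μ z x) • ((2 : ℝ) • innerSL ℝ (x - z)))).smulRight
            (B (x - z))) x := hs.smul hi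
    have hB : ∀ a b : E, B a b = inner ℝ a b := fun a b => rfl
    rw [hfd2, hsm.fderiv]
    simp only [_root_.add_apply, _root_.smul_apply,
      ContinuousLinearMap.smulRight_apply, innerSL_apply_apply, smul_eq_mul, hB]
    rw [real_inner_self_eq_norm_sq]
    ring
  rw [LAP_eq_sum]
  simp only [hkey]
  rw [Finset.sum_add_distrib, ← Finset.mul_sum, LAP_sum_inner_sq]
  simp
  ring

theorem contDiff_U {μ : ℝ} (hμ : 0 < μ) (z : E) {n : WithTop ℕ∞} : ContDiff ℝ n (U μ z) := by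
  unfold U
  exact contDiff_const.div ((contDiff_A μ z).pow 2) fun x => (pow_pos (A_pos hμ z x) 2).ne'

theorem lap_U {μ : ℝ} (hμ : 0 < μ) (z x : E) : (Δ (U μ z)) x = -(U μ z x) ^ 2 := by
  have hA := A_pos hμ z x
  have h1 : ∀ a : ℝ, a ≠ 0 → HasDerivAt (fun a : ℝ => 24 * μ ^ 2 / a ^ 2)
      (-48 * μ ^ 2 / a ^ 3) a := by
    intro a ha
    have := (hasDerivAt_pow 2 a).inv (pow_ne_zero 2 ha)
    have := this.const_mul (24 * μ ^ 2)
    refine this.congr_deriv ?_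
    field_simp
    norm_num
    ring
  have h2 : ∀ a : ℝ, a ≠ 0 → HasDerivAt (fun a : ℝ => -48 * μ ^ 2 / a ^ 3)
      (144 * μ ^ 2 / a ^ 4) a := by
    intro a ha
    have := (hasDerivAt_pow 3 a).inv (pow_ne_zero 3 ha)
    have := this.const_mul (-48 * μ ^ 2)
    refine this.congr_deriv ?_
    field_simp
    norm_num
    ring
  have hd1 : deriv (fun a : ℝ => 24 * μ ^ 2 / a ^ 2) (A μ z x) = -48 * μ ^ 2 / (A μ z x) ^ 3 :=
    (h1 _ hA.ne').deriv
  have hd2 : deriv (deriv (fun a : ℝ => 24 * μ ^ 2 / a ^ 2)) (A μ z x)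
      = 144 * μ ^ 2 / (A μ z x) ^ 4 := by
    have hev : deriv (fun a : ℝ => 24 * μ ^ 2 / a ^ 2) =ᶠ[nhds (A μ z x)]
        fun a => -48 * μ ^ 2 / a ^ 3 :=
      (eventually_ne_nhds hA.ne').mono fun a ha => (h1 a ha).deriv
    rw [hev.deriv_eq]
    exact (h2 _ hA.ne').deriv
  have hcd : ContDiffAt ℝ 2 (fun a : ℝ => 24 * μ ^ 2 / a ^ 2) (A μ z x) :=
    contDiffAt_const.div (contDiffAt_id.pow 2) (pow_ne_zero 2 hA.ne')
  have h := lap_comp_A (fun a : ℝ => 24 * μ ^ 2 / a ^ 2) μ z x hcd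
  rw [hd1, hd2] at h
  have hU : U μ z = fun y : E => 24 * μ ^ 2 / (A μ z y) ^ 2 := rfl
  rw [hU, h]
  have hr : ‖x - z‖ ^ 2 = A μ z x - μ ^ 2 := by unfold A; ring
  rw [hr]
  field_simp
  ring

end Pool.Helper4.BT
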