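import Pool.Agent.Helper12.BT.LAP
import Pool.Agent.Helper83.BT.LMAX

/-!
# STEP2 : explicit supersolutions and the pointwise estimate
-/

namespace Pool.Helper4.BT
open MeasureTheory Metric Set Laplacian InnerProductSpace

/-- `w` is `C²` at `x` and `-Δ w x ≥ c`. -/
structure STSup (w : E → ℝ) (x : E) (c : ℝ) : Prop where
  cd : ContDiffAt ℝ 2 w x
  le : c ≤ -(Δ w) x

theorem STSup.add {w₁ w₂ : E → ℝ} {x : E} {c₁ c₂ : ℝ} (h₁ : STSup w₁ x c₁)
    (h₂ : STSup w₂ x c₂) : STSup (fun y => w₁ y + w₂ y) x (c₁ + c₂) := by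
  refine ⟨h₁.cd.add h₂.cd, ?_⟩
  have h : (Δ (fun y => w₁ y + w₂ y)) x = (Δ w₁) x + (Δ w₂) x :=
    ContDiffAt.laplacian_add h₁.cd h₂.cd
  rw [h]
  have := h₁.le
  have := h₂.le
  linarith

theorem STSup.const_mul {w : E → ℝ} {x : E} {c : ℝ} (h : STSup w x c) {a : ℝ} (ha : 0 ≤ a) :
    STSup (fun y => a * w y) x (a * c) := by
  refine ⟨contDiffAt_const.mul h.cd, ?_⟩
  have h' : (Δ (fun y => a * w y)) x = a * (Δ w) x := laplacian_smul a h.cd
  rw [h']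
  have := mul_le_mul_of_nonneg_left h.le ha
  linarith

theorem STSup.mono {w : E → ℝ} {x : E} {c c' : ℝ} (h : STSup w x c) (hc : c' ≤ c) :
    STSup w x c' := ⟨h.cd, hc.trans h.le⟩

theorem STSup_const (a : ℝ) (x : E) : STSup (fun _ => a) x 0 := by
  refine ⟨contDiffAt_const, ?_⟩
  have : (Δ (fun _ : E => a)) x = 0 := by simp
  rw [this]; simp

theorem STSup_sum {ι : Type*} (s : Finset ι) (w : ι → E → ℝ) (c : ι → ℝ) (x : E)
    (h : ∀ i ∈ s, STSup (w i) x (c i)) :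
    STSup (fun y => ∑ i ∈ s, w i y) x (∑ i ∈ s, c i) := by
  classical
  induction s using Finset.induction_on with
  | empty => simpa using STSup_const 0 x
  | insert a s ha ih =>
    have h1 := h a (Finset.mem_insert_self a s)
    have h2 := ih fun i hi => h i (Finset.mem_insert_of_mem hi)
    have := h1.add h2
    simpa [Finset.sum_insert ha] using this

/-- Radial functions of `ρ = √A`. -/
theorem ST_lap_rho (ψ ψ1 : ℝ → ℝ) (ψ2 : ℝ) {μ : ℝ} (hμ : 0 < μ) (z x : E)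
    (h1 : ∀ t : ℝ, 0 < t → HasDerivAt ψ (ψ1 t) t)
    (h2 : HasDerivAt ψ1 ψ2 (√(A μ z x))) (hc : ContDiffAt ℝ 2 ψ (√(A μ z x))) :
    ContDiffAt ℝ 2 (fun y => ψ (√(A μ z y))) x ∧
    (Δ (fun y => ψ (√(A μ z y)))) x
      = ψ2 * (1 - μ ^ 2 / √(A μ z x) ^ 2)
        + ψ1 (√(A μ z x)) * (5 / √(A μ z x) + μ ^ 2 / √(A μ z x) ^ 3) := by
  have hA := A_pos hμ z x
  set ρ := √(A μ z x) with hρdef
  have hρ : 0 < ρ := Real.sqrt_pos.2 hA
  have hρ2 : ρ ^ 2 = A μ z x := Real.sq_sqrt hA.le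
  have hsq : ∀ a : ℝ, 0 < a → HasDerivAt (fun a : ℝ => √a) (1 / (2 * √a)) a := fun a ha =>
    Real.hasDerivAt_sqrt ha.ne'
  have hφ1 : ∀ a : ℝ, 0 < a → HasDerivAt (fun a : ℝ => ψ (√a)) (ψ1 (√a) * (1 / (2 * √a))) a :=
    fun a ha => (h1 _ (Real.sqrt_pos.2 ha)).comp a (hsq a ha)
  have hφ2 : HasDerivAt (fun a : ℝ => ψ1 (√a) * (1 / (2 * √a)))
      (ψ2 * (1 / (4 * ρ ^ 2)) - ψ1 ρ * (1 / (4 * ρ ^ 3))) (A μ z x) := by
    have e1 : HasDerivAt (fun a : ℝ => ψ1 (√a)) (ψ2 * (1 / (2 * ρ))) (A μ z x) :=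
      h2.comp (A μ z x) (hsq _ hA)
    have e2 : HasDerivAt (fun a : ℝ => 1 / (2 * √a)) (-(1 / (4 * ρ ^ 3))) (A μ z x) := by
      have := ((hsq _ hA).const_mul 2).inv (c := fun a : ℝ => 2 * √a)
        (by simpa using hρ.ne')
      have e3 : (fun a : ℝ => 1 / (2 * √a)) = (fun a : ℝ => 2 * √a)⁻¹ := by
        ext a; simp
      rw [e3]
      refine this.congr_deriv ?_
      rw [← hρdef]
      field_simp
      norm_num
    refine (e1.mul e2).congr_deriv ?_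
    rw [← hρdef]
    field_simp
    ring
  have hcd : ContDiffAt ℝ 2 (fun a : ℝ => ψ (√a)) (A μ z x) :=
    ContDiffAt.comp (A μ z x) hc (Real.contDiffAt_sqrt hA.ne')
  have hd1 : deriv (fun a : ℝ => ψ (√a)) (A μ z x) = ψ1 ρ * (1 / (2 * ρ)) := (hφ1 _ hA).deriv
  have hd2 : deriv (deriv (fun a : ℝ => ψ (√a))) (A μ z x)
      = ψ2 * (1 / (4 * ρ ^ 2)) - ψ1 ρ * (1 / (4 * ρ ^ 3)) := by
    have hev : deriv (fun a : ℝ => ψ (√a)) =ᶠ[nhds (A μ z x)]
        fun a : ℝ => ψ1 (√a) * (1 / (2 * √a)) :=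
      (eventually_gt_nhds hA).mono fun a ha => (hφ1 a ha).deriv
    rw [hev.deriv_eq]
    exact hφ2.deriv
  refine ⟨hcd.comp x (contDiff_A μ z).contDiffAt, ?_⟩
  have h := lap_comp_A (fun a : ℝ => ψ (√a)) μ z x hcd
  rw [hd1, hd2] at h
  rw [h]
  have hr : ‖x - z‖ ^ 2 = ρ ^ 2 - μ ^ 2 := by rw [hρ2]; unfold A; ring
  rw [hr]
  field_simp
  ring

theorem ST_mu_le {μ : ℝ} (_hμ : 0 < μ) (z x : E) : μ ≤ √(A μ z x) := by
  apply Real.le_sqrt_of_sq_le
  unfold A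
  nlinarith [sq_nonneg ‖x - z‖]

theorem ST_r_le (μ : ℝ) (z x : E) : ‖x - z‖ ≤ √(A μ z x) := by
  apply Real.le_sqrt_of_sq_le
  unfold A
  nlinarith [sq_nonneg μ]

/-- `(D + ρ)^{-4}`. -/
theorem ST_inv4 {μ : ℝ} (hμ : 0 < μ) (z x : E) {D : ℝ} (hD : 0 < D) :
    STSup (fun y => 1 / (D + √(A μ z y)) ^ 4) x
      (20 * D / (D + √(A μ z x)) ^ 6 / √(A μ z x)) := by
  have hA := A_pos hμ z x
  have hρ : 0 < √(A μ z x) := Real.sqrt_pos.2 hA
  have h1 : ∀ t : ℝ, 0 < t → HasDerivAt (fun t : ℝ => 1 / (D + t) ^ 4) (-4 / (D + t) ^ 5) t := by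
    intro t ht
    have ht' : D + t ≠ 0 := by positivity
    have := (((hasDerivAt_id t).const_add D).pow 4).inv (pow_ne_zero 4 ht')
    have e : (fun t : ℝ => 1 / (D + t) ^ 4) = ((fun x : ℝ => D + id x) ^ 4)⁻¹ := by
      ext a; simp
    rw [e]
    refine this.congr_deriv ?_
    simp only [id, Pi.pow_apply]
    field_simp
    norm_num
    ring
  have h2 : HasDerivAt (fun t : ℝ => -4 / (D + t) ^ 5) (20 / (D + √(A μ z x)) ^ 6)
      (√(A μ z x)) := by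
    have ht' : D + √(A μ z x) ≠ 0 := by positivity
    have := ((((hasDerivAt_id (√(A μ z x))).const_add D).pow 5).inv (pow_ne_zero 5 ht')).const_mul (-4)
    have e : (fun t : ℝ => -4 / (D + t) ^ 5)
        = fun y => -4 * ((fun x : ℝ => D + id x) ^ 5)⁻¹ y := by
      ext a; simp [div_eq_mul_inv]
    rw [e]
    refine this.congr_deriv ?_
    simp only [id, Pi.pow_apply]
    field_simp
    norm_num
    ring
  have hc : ContDiffAt ℝ 2 (fun t : ℝ => 1 / (D + t) ^ 4) (√(A μ z x)) := by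
    have ht' : (D + √(A μ z x)) ^ 4 ≠ 0 := by positivity
    exact contDiffAt_const.div ((contDiffAt_const.add contDiffAt_id).pow 4) ht'
  obtain ⟨hcd, hlap⟩ := ST_lap_rho _ _ _ hμ z x h1 h2 hc
  refine ⟨hcd, ?_⟩
  rw [hlap]
  set ρ := √(A μ z x)
  have hkey : -(20 / (D + ρ) ^ 6 * (1 - μ ^ 2 / ρ ^ 2)
      + -4 / (D + ρ) ^ 5 * (5 / ρ + μ ^ 2 / ρ ^ 3))
      = 20 * D / (D + ρ) ^ 6 / ρ + (20 * μ ^ 2 / ((D + ρ) ^ 6 * ρ ^ 2)
        + 4 * μ ^ 2 / ((D + ρ) ^ 5 * ρ ^ 3)) := by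
    field_simp
    ring
  rw [hkey]
  have : 0 ≤ 20 * μ ^ 2 / ((D + ρ) ^ 6 * ρ ^ 2) + 4 * μ ^ 2 / ((D + ρ) ^ 5 * ρ ^ 3) := by
    positivity
  linarith

/-- the barrier `V`. -/
theorem ST_V {μ : ℝ} (hμ : 0 < μ) (z x : E) :
    STSup (fun y => μ ^ 2 / √(A μ z y) ^ 4 - μ ^ 3 / (5 * √(A μ z y) ^ 5)) x
      (μ ^ 3 / √(A μ z x) ^ 7) := by
  have hA := A_pos hμ z x
  have hρ : 0 < √(A μ z x) := Real.sqrt_pos.2 hA
  have h1 : ∀ t : ℝ, 0 < t → HasDerivAt (fun t : ℝ => μ ^ 2 / t ^ 4 - μ ^ 3 / (5 * t ^ 5))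
      (-4 * μ ^ 2 / t ^ 5 + μ ^ 3 / t ^ 6) t := by
    intro t ht
    have a1 := ((hasDerivAt_pow 4 t).inv (pow_ne_zero 4 ht.ne')).const_mul (μ ^ 2)
    have a2 := ((hasDerivAt_pow 5 t).inv (pow_ne_zero 5 ht.ne')).const_mul (μ ^ 3 / 5)
    have e : (fun t : ℝ => μ ^ 2 / t ^ 4 - μ ^ 3 / (5 * t ^ 5))
        = fun y => μ ^ 2 * (fun x : ℝ => x ^ 4)⁻¹ y - μ ^ 3 / 5 * (fun x : ℝ => x ^ 5)⁻¹ y := by
      ext a; simp [div_eq_mul_inv]; ring
    rw [e]
    refine (a1.sub a2).congr_deriv ?_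
    field_simp
    norm_num
    ring
  have h2 : HasDerivAt (fun t : ℝ => -4 * μ ^ 2 / t ^ 5 + μ ^ 3 / t ^ 6)
      (20 * μ ^ 2 / √(A μ z x) ^ 6 - 6 * μ ^ 3 / √(A μ z x) ^ 7) (√(A μ z x)) := by
    have a1 := ((hasDerivAt_pow 5 (√(A μ z x))).inv (pow_ne_zero 5 hρ.ne')).const_mul (-4 * μ ^ 2)
    have a2 := ((hasDerivAt_pow 6 (√(A μ z x))).inv (pow_ne_zero 6 hρ.ne')).const_mul (μ ^ 3)
    have e : (fun t : ℝ => -4 * μ ^ 2 / t ^ 5 + μ ^ 3 / t ^ 6)
        = fun y => -4 * μ ^ 2 * (fun x : ℝ => x ^ 5)⁻¹ y + μ ^ 3 * (fun x : ℝ => x ^ 6)⁻¹ y := by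
      ext a; simp [div_eq_mul_inv]
    rw [e]
    refine (a1.add a2).congr_deriv ?_
    field_simp
    norm_num
    ring
  have hc : ContDiffAt ℝ 2 (fun t : ℝ => μ ^ 2 / t ^ 4 - μ ^ 3 / (5 * t ^ 5)) (√(A μ z x)) := by
    have c4 : ContDiffAt ℝ 2 (fun t : ℝ => t ^ 4) (√(A μ z x)) := contDiffAt_id.pow 4
    have c5 : ContDiffAt ℝ 2 (fun t : ℝ => 5 * t ^ 5) (√(A μ z x)) :=
      contDiffAt_const.mul (contDiffAt_id.pow 5)
    have h5 : (5 : ℝ) * √(A μ z x) ^ 5 ≠ 0 := by positivity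
    exact (contDiffAt_const.div c4 (pow_ne_zero 4 hρ.ne')).sub (contDiffAt_const.div c5 h5)
  obtain ⟨hcd, hlap⟩ := ST_lap_rho _ _ _ hμ z x h1 h2 hc
  refine ⟨hcd, ?_⟩
  rw [hlap]
  have hμρ : μ ≤ √(A μ z x) := ST_mu_le hμ z x
  set ρ := √(A μ z x)
  have hkey : -((20 * μ ^ 2 / ρ ^ 6 - 6 * μ ^ 3 / ρ ^ 7) * (1 - μ ^ 2 / ρ ^ 2)
      + (-4 * μ ^ 2 / ρ ^ 5 + μ ^ 3 / ρ ^ 6) * (5 / ρ + μ ^ 2 / ρ ^ 3))
      = μ ^ 3 / ρ ^ 7 + μ ^ 4 * (24 * ρ - 7 * μ) / ρ ^ 9 := by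
    field_simp
    ring
  rw [hkey]
  have : 0 ≤ μ ^ 4 * (24 * ρ - 7 * μ) / ρ ^ 9 := by
    have : 0 ≤ 24 * ρ - 7 * μ := by linarith
    positivity
  linarith

/-- the barrier `1 - |x-p|²`. -/
theorem ST_w0 (p x : E) : STSup (fun y => 1 - ‖y - p‖ ^ 2) x 12 := by
  have hc : ContDiffAt ℝ 2 (fun a : ℝ => 1 - a) (A 0 p x) := contDiffAt_const.sub contDiffAt_id
  have h := lap_comp_A (fun a : ℝ => 1 - a) 0 p x hc
  have e : (fun y => (fun a : ℝ => 1 - a) (A 0 p y)) = fun y : E => 1 - ‖y - p‖ ^ 2 := by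
    ext y; simp [A]
  have hd : deriv (fun a : ℝ => 1 - a) = fun _ => -1 := by
    ext a; simp
  rw [hd] at h
  refine ⟨?_, ?_⟩
  · have := hc.comp x (contDiff_A 0 p).contDiffAt
    have e' : (fun a : ℝ => 1 - a) ∘ (A 0 p) = fun y : E => 1 - ‖y - p‖ ^ 2 := e
    rwa [e'] at this
  · have e3 : (fun y : E => 1 - ‖y - p‖ ^ 2) = fun y : E => 1 - A 0 p y := by
      ext y; simp [A]
    rw [e3, h]; simp

/-- maximum principle. -/
theorem ST_max (p : E) (R : ℝ) (v S : E → ℝ) (hv : ∀ x, ContDiffAt ℝ 2 v x)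
    (hS : ∀ x, ContDiffAt ℝ 2 S x)
    (hlap : ∀ x ∈ ball p R, (Δ S) x < (Δ v) x) (hb : ∀ x, ‖x - p‖ = R → v x ≤ S x) :
    ∀ x ∈ closedBall p R, v x ≤ S x := by
  intro x hx
  have hcont : Continuous (fun y => v y - S y) := by
    rw [continuous_iff_continuousAt]
    exact fun y => (hv y).continuousAt.sub (hS y).continuousAt
  obtain ⟨x0, hx0, hmax⟩ := (isCompact_closedBall p R).exists_isMaxOn ⟨x, hx⟩ hcont.continuousOn
  have hle : v x - S x ≤ v x0 - S x0 := hmax hx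
  rcases lt_or_eq_of_le (mem_closedBall.1 hx0) with hlt | heq
  · exfalso
    have hball : ball p R ∈ nhds x0 := isOpen_ball.mem_nhds (mem_ball.2 hlt)
    have hloc : IsLocalMax (fun y => v y - S y) x0 :=
      Filter.mem_of_superset hball fun y hy => hmax (ball_subset_closedBall hy)
    have h1 := lap_nonpos_of_isLocalMax hloc ((hv x0).sub (hS x0))
    have h2 : (Δ (fun y => v y - S y)) x0 = (Δ v) x0 - (Δ S) x0 :=
      ContDiffAt.laplacian_sub (hv x0) (hS x0)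
    have h3 := hlap x0 (mem_ball.2 hlt)
    rw [h2] at h1
    linarith
  · have := hb x0 (by rwa [dist_eq_norm] at heq)
    linarith

theorem ST_exp_sum_log_le (k : ℕ) (hk : 1 ≤ k) (s : Finset ℕ) (hs : s.card ≤ k) (X : ℕ → ℝ)
    (hX : ∀ l ∈ s, 0 ≤ X l) :
    Real.exp (kap k * ∑ l ∈ s, Real.log (1 + X l ^ 2)) ≤ 1 + ∑ l ∈ s, X l := by
  set M := ∑ l ∈ s, X l with hM
  have hM0 : 0 ≤ M := Finset.sum_nonneg hX
  have hlog : 0 ≤ Real.log (1 + M) := Real.log_nonneg (by linarith)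
  have hk0 : (0 : ℝ) < k := by exact_mod_cast hk
  have h1 : ∑ l ∈ s, Real.log (1 + X l ^ 2) ≤ ∑ l ∈ s, 2 * Real.log (1 + M) := by
    refine Finset.sum_le_sum fun l hl => ?_
    have hl0 := hX l hl
    have hlM : X l ≤ M := Finset.single_le_sum hX hl
    have : (2 : ℝ) * Real.log (1 + M) = Real.log ((1 + M) ^ 2) := by
      rw [Real.log_pow]; norm_num
    rw [this]
    apply Real.log_le_log (by positivity)
    nlinarith
  rw [Finset.sum_const, nsmul_eq_mul] at h1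
  have h2 : (s.card : ℝ) * (2 * Real.log (1 + M)) ≤ k * (2 * Real.log (1 + M)) := by
    have : (s.card : ℝ) ≤ k := by exact_mod_cast hs
    exact mul_le_mul_of_nonneg_right this (by positivity)
  have h3 : kap k * ∑ l ∈ s, Real.log (1 + X l ^ 2) ≤ Real.log (1 + M) := by
    have hkap : 0 < kap k := by unfold kap; positivity
    calc kap k * ∑ l ∈ s, Real.log (1 + X l ^ 2)
        ≤ kap k * (k * (2 * Real.log (1 + M))) :=
          mul_le_mul_of_nonneg_left (h1.trans h2) hkap.le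
      _ = (1 / 16) * Real.log (1 + M) := by unfold kap; field_simp; ring
      _ ≤ Real.log (1 + M) := by linarith
  calc Real.exp (kap k * ∑ l ∈ s, Real.log (1 + X l ^ 2))
      ≤ Real.exp (Real.log (1 + M)) := Real.exp_le_exp.2 h3
    _ = 1 + M := Real.exp_log (by linarith)

theorem ST_log_sub {μ : ℝ} (hμ : 0 < μ) (z x : E) (D : ℝ) :
    Real.log (A μ z x + D ^ 2) - Real.log (A μ z x)
      = Real.log (1 + (D / √(A μ z x)) ^ 2) := by
  have hA := A_pos hμ z x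
  rw [← Real.log_div (by positivity) hA.ne', div_pow, Real.sq_sqrt hA.le, add_div,
    div_self hA.ne']

theorem ST_F0_sq (k : ℕ) (hk : 1 ≤ k) (mu : ℕ → ℝ) (z : ℕ → E) (hmu : ∀ l < k, 0 < mu l) (x : E) :
    F0 k mu z x ^ 2 ≤ 1 + ∑ l ∈ Finset.range k, 1 / √(A (mu l) (z l) x) := by
  have h1 : F0 k mu z x ^ 2 = Real.exp (kap k * ∑ l ∈ Finset.range k,
      Real.log (1 + (1 / √(A (mu l) (z l) x)) ^ 2)) := by
    unfold F0
    rw [← Real.exp_nat_mul]
    congr 1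
    have : ∑ l ∈ Finset.range k, (Real.log (A (mu l) (z l) x + 1) - Real.log (A (mu l) (z l) x))
        = ∑ l ∈ Finset.range k, Real.log (1 + (1 / √(A (mu l) (z l) x)) ^ 2) := by
      refine Finset.sum_congr rfl fun l hl => ?_
      have := ST_log_sub (hmu l (Finset.mem_range.1 hl)) (z l) x 1
      simpa using this
    rw [this]; push_cast; ring
  rw [h1]
  exact ST_exp_sum_log_le k hk _ (by simp) _ fun l hl => by positivity

theorem ST_Fj_sq (k : ℕ) (hk : 1 ≤ k) (mu : ℕ → ℝ) (z : ℕ → E) (hmu : ∀ l < k, 0 < mu l) (j : ℕ)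
    (hj : j < k) (x : E) :
    Fj k mu z j x ^ 2 ≤ mu j ^ 3 / √(A (mu j) (z j) x) ^ 7 *
      (1 + ∑ l ∈ (Finset.range k).erase j, Dd mu z l j / √(A (mu l) (z l) x)) := by
  have hmj := hmu j hj
  have hA := A_pos hmj (z j) x
  have hρ : 0 < √(A (mu j) (z j) x) := Real.sqrt_pos.2 hA
  have hlogA : Real.log (A (mu j) (z j) x) = 2 * Real.log (√(A (mu j) (z j) x)) := by
    rw [Real.log_sqrt hA.le]; ring
  have h1 : Fj k mu z j x ^ 2 = mu j ^ 3 / √(A (mu j) (z j) x) ^ 7 *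
      Real.exp (kap k * ∑ l ∈ (Finset.range k).erase j,
      Real.log (1 + (Dd mu z l j / √(A (mu l) (z l) x)) ^ 2)) := by
    unfold Fj
    rw [← Real.exp_nat_mul]
    have e1 : mu j ^ 3 / √(A (mu j) (z j) x) ^ 7
        = Real.exp (3 * Real.log (mu j) - 7 * Real.log (√(A (mu j) (z j) x))) := by
      rw [Real.exp_sub, ← Real.log_rpow hmj, ← Real.log_rpow hρ, Real.exp_log (by positivity),
        Real.exp_log (by positivity)]
      norm_cast
    rw [e1, ← Real.exp_add]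
    congr 1
    have : ∑ l ∈ (Finset.range k).erase j, (Real.log (A (mu l) (z l) x + Dd mu z l j ^ 2)
          - Real.log (A (mu l) (z l) x))
        = ∑ l ∈ (Finset.range k).erase j,
          Real.log (1 + (Dd mu z l j / √(A (mu l) (z l) x)) ^ 2) := by
      refine Finset.sum_congr rfl fun l hl => ?_
      have hlk : l < k := Finset.mem_range.1 (Finset.mem_of_mem_erase hl)
      exact ST_log_sub (hmu l hlk) (z l) x _
    rw [this, hlogA]; push_cast; ring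
  rw [h1]
  refine mul_le_mul_of_nonneg_left ?_ (by positivity)
  refine ST_exp_sum_log_le k hk _ ?_ _ fun l hl => ?_
  · calc ((Finset.range k).erase j).card ≤ (Finset.range k).card := Finset.card_erase_le
      _ = k := by simp
  · have : 0 ≤ Dd mu z l j := le_max_of_le_left (norm_nonneg _)
    positivity

/-- the interaction claim. -/
theorem ST_claim {mj ml D : ℝ} (hmj : 0 < mj) (hml : 0 < ml) (zj zl x : E)
    (hD : D = max ‖zl - zj‖ mj) :
    mj ^ 3 / √(A mj zj x) ^ 7 * (D / √(A ml zl x))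
      ≤ 8 * (mj ^ 3 / √(A mj zj x) ^ 7)
        + mj ^ 3 / D * (20 * D / (D + √(A ml zl x)) ^ 6 / √(A ml zl x)) := by
  have hAj := A_pos hmj zj x
  have hAl := A_pos hml zl x
  have hρj : 0 < √(A mj zj x) := Real.sqrt_pos.2 hAj
  have hρl : 0 < √(A ml zl x) := Real.sqrt_pos.2 hAl
  have hD0 : 0 < D := by rw [hD]; exact lt_max_of_lt_right hmj
  have hrl : ‖x - zl‖ ≤ √(A ml zl x) := ST_r_le ml zl x
  have hrj : ‖x - zj‖ ≤ √(A mj zj x) := ST_r_le mj zj x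
  have hmj' : mj ≤ √(A mj zj x) := ST_mu_le hmj zj x
  set ρ := √(A ml zl x) with hρ
  set σ := √(A mj zj x) with hσ
  rcases le_or_gt (D / 8) ρ with hcase | hcase
  · have h1 : D / ρ ≤ 8 := by rw [div_le_iff₀ hρl]; linarith
    have h2 : mj ^ 3 / σ ^ 7 * (D / ρ) ≤ mj ^ 3 / σ ^ 7 * 8 :=
      mul_le_mul_of_nonneg_left h1 (by positivity)
    have h3 : 0 ≤ mj ^ 3 / D * (20 * D / (D + ρ) ^ 6 / ρ) := by positivity
    linarith
  · -- σ ≥ 7 D / 8
    have hσD : 7 / 8 * D ≤ σ := by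
      rcases le_total ‖zl - zj‖ mj with h | h
      · have : D = mj := by rw [hD]; exact max_eq_right h
        linarith
      · have hDe : D = ‖zl - zj‖ := by rw [hD]; exact max_eq_left h
        have : ‖zl - zj‖ ≤ ‖x - zj‖ + ‖x - zl‖ := by
          have e : zl - zj = (x - zj) - (x - zl) := by abel
          rw [e]; exact norm_sub_le _ _
        linarith
    have h7 : (7 / 8 * D) ^ 7 ≤ σ ^ 7 := pow_le_pow_left₀ (by positivity) hσD 7
    have h1 : mj ^ 3 / σ ^ 7 * (D / ρ) ≤ mj ^ 3 / (7 / 8 * D) ^ 7 * (D / ρ) := by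
      gcongr
    have h6 : (D + ρ) ^ 6 ≤ (9 / 8 * D) ^ 6 := pow_le_pow_left₀ (by positivity) (by linarith) 6
    have h2 : mj ^ 3 / D * (20 * D / (9 / 8 * D) ^ 6 / ρ)
        ≤ mj ^ 3 / D * (20 * D / (D + ρ) ^ 6 / ρ) := by
      gcongr
    have h3 : mj ^ 3 / (7 / 8 * D) ^ 7 * (D / ρ) ≤ mj ^ 3 / D * (20 * D / (9 / 8 * D) ^ 6 / ρ) := by
      have e1 : mj ^ 3 / (7 / 8 * D) ^ 7 * (D / ρ) = mj ^ 3 / (D ^ 6 * ρ) * (8 / 7) ^ 7 := by
        field_simp
      have e2 : mj ^ 3 / D * (20 * D / (9 / 8 * D) ^ 6 / ρ)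
          = mj ^ 3 / (D ^ 6 * ρ) * (20 * (8 / 9) ^ 6) := by
        field_simp
      rw [e1, e2]
      exact mul_le_mul_of_nonneg_left (by norm_num) (by positivity)
    have h4 : 0 ≤ 8 * (mj ^ 3 / σ ^ 7) := by positivity
    linarith

theorem ST_W_le {mj ml D : ℝ} (hmj : 0 < mj) (hml : 0 < ml) (zj zl x : E)
    (hD : D = max ‖zl - zj‖ mj) :
    mj ^ 3 / D * (1 / (D + √(A ml zl x)) ^ 4) ≤ 4 * (mj ^ 2 / (A mj zj x) ^ 2) := by
  have hAj := A_pos hmj zj x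
  have hAl := A_pos hml zl x
  have hρl : 0 < √(A ml zl x) := Real.sqrt_pos.2 hAl
  have hD0 : 0 < D := by rw [hD]; exact lt_max_of_lt_right hmj
  have hmD : mj ≤ D := by rw [hD]; exact le_max_right _ _
  have hzD : ‖zl - zj‖ ≤ D := by rw [hD]; exact le_max_left _ _
  have hrl : ‖x - zl‖ ≤ √(A ml zl x) := ST_r_le ml zl x
  set ρ := √(A ml zl x) with hρ
  have hrj : ‖x - zj‖ ≤ D + ρ := by
    have e : x - zj = (x - zl) + (zl - zj) := by abel
    rw [e]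
    have := norm_add_le (x - zl) (zl - zj)
    linarith
  have hA2 : A mj zj x ≤ 2 * (D + ρ) ^ 2 := by
    unfold A
    have h1 : mj ^ 2 ≤ (D + ρ) ^ 2 := pow_le_pow_left₀ hmj.le (by linarith) 2
    have h2 : ‖x - zj‖ ^ 2 ≤ (D + ρ) ^ 2 := pow_le_pow_left₀ (norm_nonneg _) hrj 2
    linarith
  have hA4 : (A mj zj x) ^ 2 ≤ 4 * (D + ρ) ^ 4 := by
    have := pow_le_pow_left₀ hAj.le hA2 2
    calc (A mj zj x) ^ 2 ≤ (2 * (D + ρ) ^ 2) ^ 2 := this
      _ = 4 * (D + ρ) ^ 4 := by ring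
  have h1 : mj ^ 3 / D ≤ mj ^ 2 := by
    rw [div_le_iff₀ hD0]
    have : mj ^ 3 = mj ^ 2 * mj := by ring
    rw [this]
    exact mul_le_mul_of_nonneg_left hmD (by positivity)
  have h2 : 1 / (D + ρ) ^ 4 ≤ 4 / (A mj zj x) ^ 2 := by
    rw [div_le_div_iff₀ (by positivity) (by positivity)]
    linarith
  calc mj ^ 3 / D * (1 / (D + ρ) ^ 4) ≤ mj ^ 2 * (4 / (A mj zj x) ^ 2) := by gcongr
    _ = 4 * (mj ^ 2 / (A mj zj x) ^ 2) := by ring

/-- The comparison function. -/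
noncomputable def STS (k : ℕ) (p : E) (mu : ℕ → ℝ) (z : ℕ → E) (y : E) : ℝ :=
  1 + (1 - ‖y - p‖ ^ 2)
    + (∑ l ∈ Finset.range k, 1 / (1 + √(A (mu l) (z l) y)) ^ 4)
    + ∑ j ∈ Finset.range k, ((1 + 8 * k) *
        (mu j ^ 2 / √(A (mu j) (z j) y) ^ 4 - mu j ^ 3 / (5 * √(A (mu j) (z j) y) ^ 5))
      + ∑ l ∈ (Finset.range k).erase j,
        mu j ^ 3 / Dd mu z l j * (1 / (Dd mu z l j + √(A (mu l) (z l) y)) ^ 4))

/-- The model right hand side. -/
noncomputable def STG (k : ℕ) (mu : ℕ → ℝ) (z : ℕ → E) (x : E) : ℝ :=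
  1 + (∑ l ∈ Finset.range k, 1 / √(A (mu l) (z l) x))
    + ∑ j ∈ Finset.range k, mu j ^ 3 / √(A (mu j) (z j) x) ^ 7 *
      (1 + ∑ l ∈ (Finset.range k).erase j, Dd mu z l j / √(A (mu l) (z l) x))

theorem ST_Dd_pos {k : ℕ} {mu : ℕ → ℝ} {z : ℕ → E} (hmu : ∀ l < k, 0 < mu l) {j : ℕ} (hj : j < k)
    (l : ℕ) : 0 < Dd mu z l j := lt_max_of_lt_right (hmu j hj)

theorem STS_sup (k : ℕ) (p : E) (mu : ℕ → ℝ) (z : ℕ → E) (hmu : ∀ l < k, 0 < mu l) (x : E) :
    STSup (STS k p mu z) x (12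
      + (∑ l ∈ Finset.range k, 20 * 1 / (1 + √(A (mu l) (z l) x)) ^ 6 / √(A (mu l) (z l) x))
      + ∑ j ∈ Finset.range k, ((1 + 8 * k) * (mu j ^ 3 / √(A (mu j) (z j) x) ^ 7)
        + ∑ l ∈ (Finset.range k).erase j, mu j ^ 3 / Dd mu z l j *
          (20 * Dd mu z l j / (Dd mu z l j + √(A (mu l) (z l) x)) ^ 6 / √(A (mu l) (z l) x)))) := by
  have h1 : STSup (fun y : E => 1 + (1 - ‖y - p‖ ^ 2)) x 12 := by
    have := (STSup_const 1 x).add (ST_w0 p x)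
    simpa using this
  have h2 : STSup (fun y => ∑ l ∈ Finset.range k, 1 / (1 + √(A (mu l) (z l) y)) ^ 4) x
      (∑ l ∈ Finset.range k, 20 * 1 / (1 + √(A (mu l) (z l) x)) ^ 6 / √(A (mu l) (z l) x)) :=
    STSup_sum _ _ _ _ fun l hl => ST_inv4 (hmu l (Finset.mem_range.1 hl)) (z l) x one_pos
  have h3 := STSup_sum (Finset.range k) (fun j y => ((1 + 8 * (k : ℝ)) *
        (mu j ^ 2 / √(A (mu j) (z j) y) ^ 4 - mu j ^ 3 / (5 * √(A (mu j) (z j) y) ^ 5))
      + ∑ l ∈ (Finset.range k).erase j,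
        mu j ^ 3 / Dd mu z l j * (1 / (Dd mu z l j + √(A (mu l) (z l) y)) ^ 4)))
      (fun j => (1 + 8 * (k : ℝ)) * (mu j ^ 3 / √(A (mu j) (z j) x) ^ 7)
        + ∑ l ∈ (Finset.range k).erase j, mu j ^ 3 / Dd mu z l j *
          (20 * Dd mu z l j / (Dd mu z l j + √(A (mu l) (z l) x)) ^ 6 / √(A (mu l) (z l) x)))
      x (fun j hj => by
        have hj' := Finset.mem_range.1 hj
        refine ((ST_V (hmu j hj') (z j) x).const_mul (by positivity)).add ?_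
        refine STSup_sum _ (fun l y => mu j ^ 3 / Dd mu z l j *
          (1 / (Dd mu z l j + √(A (mu l) (z l) y)) ^ 4)) _ x fun l hl => ?_
        have hlk : l < k := Finset.mem_range.1 (Finset.mem_of_mem_erase hl)
        have hmj := hmu j hj'
        have hD := ST_Dd_pos (z := z) hmu hj' l
        exact (ST_inv4 (hmu l hlk) (z l) x hD).const_mul (by positivity))
  exact (h1.add h2).add h3

theorem STS_lap (k : ℕ) (p : E) (mu : ℕ → ℝ) (z : ℕ → E) (hmu : ∀ l < k, 0 < mu l) (x : E)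
    (hA : ∀ l < k, A (mu l) (z l) x ≤ 1) :
    (5 / 16) * STG k mu z x + 11 ≤ -(Δ (STS k p mu z)) x := by
  refine le_trans ?_ (STS_sup k p mu z hmu x).le
  unfold STG
  have h1 : ∀ l ∈ Finset.range k, (5 / 16) * (1 / √(A (mu l) (z l) x))
      ≤ 20 * 1 / (1 + √(A (mu l) (z l) x)) ^ 6 / √(A (mu l) (z l) x) := by
    intro l hl
    have hlk := Finset.mem_range.1 hl
    have hAl := A_pos (hmu l hlk) (z l) x
    have hρ : 0 < √(A (mu l) (z l) x) := Real.sqrt_pos.2 hAl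
    have hρ1 : √(A (mu l) (z l) x) ≤ 1 := by
      rw [Real.sqrt_le_one]; exact hA l hlk
    have h6 : (1 + √(A (mu l) (z l) x)) ^ 6 ≤ 2 ^ 6 :=
      pow_le_pow_left₀ (by positivity) (by linarith) 6
    have h7 : (5 / 16 : ℝ) ≤ 20 * 1 / (1 + √(A (mu l) (z l) x)) ^ 6 := by
      rw [le_div_iff₀ (by positivity)]
      nlinarith
    rw [mul_one_div]
    exact div_le_div_of_nonneg_right h7 hρ.le
  have h2 := Finset.sum_le_sum h1
  rw [← Finset.mul_sum] at h2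
  have h3 : ∀ j ∈ Finset.range k, mu j ^ 3 / √(A (mu j) (z j) x) ^ 7 *
      (1 + ∑ l ∈ (Finset.range k).erase j, Dd mu z l j / √(A (mu l) (z l) x))
      ≤ (1 + 8 * k) * (mu j ^ 3 / √(A (mu j) (z j) x) ^ 7)
        + ∑ l ∈ (Finset.range k).erase j, mu j ^ 3 / Dd mu z l j *
          (20 * Dd mu z l j / (Dd mu z l j + √(A (mu l) (z l) x)) ^ 6 / √(A (mu l) (z l) x)) := by
    intro j hj
    have hjk := Finset.mem_range.1 hj
    have hmj := hmu j hjk
    have hAj := A_pos hmj (z j) x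
    have hρ : 0 < √(A (mu j) (z j) x) := Real.sqrt_pos.2 hAj
    have h4 : ∑ l ∈ (Finset.range k).erase j, mu j ^ 3 / √(A (mu j) (z j) x) ^ 7 *
        (Dd mu z l j / √(A (mu l) (z l) x))
        ≤ ∑ l ∈ (Finset.range k).erase j, (8 * (mu j ^ 3 / √(A (mu j) (z j) x) ^ 7)
          + mu j ^ 3 / Dd mu z l j *
          (20 * Dd mu z l j / (Dd mu z l j + √(A (mu l) (z l) x)) ^ 6 / √(A (mu l) (z l) x))) := by
      refine Finset.sum_le_sum fun l hl => ?_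
      have hlk : l < k := Finset.mem_range.1 (Finset.mem_of_mem_erase hl)
      exact ST_claim hmj (hmu l hlk) (z j) (z l) x rfl
    rw [Finset.sum_add_distrib, Finset.sum_const, nsmul_eq_mul, ← Finset.mul_sum] at h4
    have h5 : (((Finset.range k).erase j).card : ℝ) * (8 * (mu j ^ 3 / √(A (mu j) (z j) x) ^ 7))
        ≤ k * (8 * (mu j ^ 3 / √(A (mu j) (z j) x) ^ 7)) := by
      refine mul_le_mul_of_nonneg_right ?_ (by positivity)
      have : ((Finset.range k).erase j).card ≤ k :=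
        (Finset.card_erase_le).trans (by simp)
      exact_mod_cast this
    have h6 : mu j ^ 3 / √(A (mu j) (z j) x) ^ 7 *
      (1 + ∑ l ∈ (Finset.range k).erase j, Dd mu z l j / √(A (mu l) (z l) x))
      = mu j ^ 3 / √(A (mu j) (z j) x) ^ 7 + mu j ^ 3 / √(A (mu j) (z j) x) ^ 7 *
        ∑ l ∈ (Finset.range k).erase j, Dd mu z l j / √(A (mu l) (z l) x) := by ring
    rw [h6]
    linarith
  have h7 := Finset.sum_le_sum h3
  have h8 : 0 ≤ ∑ j ∈ Finset.range k, mu j ^ 3 / √(A (mu j) (z j) x) ^ 7 *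
      (1 + ∑ l ∈ (Finset.range k).erase j, Dd mu z l j / √(A (mu l) (z l) x)) := by
    refine Finset.sum_nonneg fun j hj => ?_
    have hjk := Finset.mem_range.1 hj
    have hmj := hmu j hjk
    refine mul_nonneg (by positivity) (add_nonneg zero_le_one (Finset.sum_nonneg fun l _ => ?_))
    have := ST_Dd_pos (z := z) hmu hjk l
    positivity
  linarith

theorem STS_ge_one (k : ℕ) (p : E) (mu : ℕ → ℝ) (z : ℕ → E) (hmu : ∀ l < k, 0 < mu l) (x : E)
    (hx : ‖x - p‖ ≤ 1) : 1 ≤ STS k p mu z x := by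
  unfold STS
  have h0 : 0 ≤ 1 - ‖x - p‖ ^ 2 := by
    have : ‖x - p‖ ^ 2 ≤ 1 := pow_le_one₀ (norm_nonneg _) hx
    linarith
  have h1 : 0 ≤ ∑ l ∈ Finset.range k, 1 / (1 + √(A (mu l) (z l) x)) ^ 4 :=
    Finset.sum_nonneg fun l _ => by positivity
  have h2 : 0 ≤ ∑ j ∈ Finset.range k, ((1 + 8 * k) *
        (mu j ^ 2 / √(A (mu j) (z j) x) ^ 4 - mu j ^ 3 / (5 * √(A (mu j) (z j) x) ^ 5))
      + ∑ l ∈ (Finset.range k).erase j,
        mu j ^ 3 / Dd mu z l j * (1 / (Dd mu z l j + √(A (mu l) (z l) x)) ^ 4)) := by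
    refine Finset.sum_nonneg fun j hj => ?_
    have hjk := Finset.mem_range.1 hj
    have hmj := hmu j hjk
    have hρ : 0 < √(A (mu j) (z j) x) := Real.sqrt_pos.2 (A_pos hmj (z j) x)
    have hμρ := ST_mu_le hmj (z j) x
    set ρ := √(A (mu j) (z j) x)
    have hV : 0 ≤ mu j ^ 2 / ρ ^ 4 - mu j ^ 3 / (5 * ρ ^ 5) := by
      have e : mu j ^ 2 / ρ ^ 4 - mu j ^ 3 / (5 * ρ ^ 5) = mu j ^ 2 * (5 * ρ - mu j) / (5 * ρ ^ 5) := by
        field_simp
      rw [e]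
      have : 0 ≤ 5 * ρ - mu j := by linarith
      positivity
    refine add_nonneg (mul_nonneg (by positivity) hV) (Finset.sum_nonneg fun l _ => ?_)
    have := ST_Dd_pos (z := z) hmu hjk l
    positivity
  linarith

theorem STS_le (k : ℕ) (p : E) (mu : ℕ → ℝ) (z : ℕ → E) (hmu : ∀ l < k, 0 < mu l) (x : E) :
    STS k p mu z x ≤ (2 + 12 * k) * (1 + ∑ l ∈ Finset.range k, U (mu l) (z l) x) := by
  unfold STS
  have h0 : 0 ≤ ‖x - p‖ ^ 2 := by positivity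
  have h1 : ∑ l ∈ Finset.range k, 1 / (1 + √(A (mu l) (z l) x)) ^ 4 ≤ (k : ℝ) := by
    have : ∀ l ∈ Finset.range k, 1 / (1 + √(A (mu l) (z l) x)) ^ 4 ≤ (1 : ℝ) := by
      intro l _
      have h : (1 : ℝ) ≤ (1 + √(A (mu l) (z l) x)) ^ 4 :=
        one_le_pow₀ (by linarith [Real.sqrt_nonneg (A (mu l) (z l) x)])
      rw [div_le_one (by positivity)]
      exact h
    have h := Finset.sum_le_sum this
    simpa using h
  have h2 : ∀ j ∈ Finset.range k, ((1 + 8 * k) *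
        (mu j ^ 2 / √(A (mu j) (z j) x) ^ 4 - mu j ^ 3 / (5 * √(A (mu j) (z j) x) ^ 5))
      + ∑ l ∈ (Finset.range k).erase j,
        mu j ^ 3 / Dd mu z l j * (1 / (Dd mu z l j + √(A (mu l) (z l) x)) ^ 4))
      ≤ (1 + 12 * k) * U (mu j) (z j) x := by
    intro j hj
    have hjk := Finset.mem_range.1 hj
    have hmj := hmu j hjk
    have hA := A_pos hmj (z j) x
    have hρ : 0 < √(A (mu j) (z j) x) := Real.sqrt_pos.2 hA
    have e4 : √(A (mu j) (z j) x) ^ 4 = A (mu j) (z j) x ^ 2 := by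
      have : √(A (mu j) (z j) x) ^ 4 = (√(A (mu j) (z j) x) ^ 2) ^ 2 := by ring
      rw [this, Real.sq_sqrt hA.le]
    have h3 : mu j ^ 2 / √(A (mu j) (z j) x) ^ 4 - mu j ^ 3 / (5 * √(A (mu j) (z j) x) ^ 5)
        ≤ mu j ^ 2 / A (mu j) (z j) x ^ 2 := by
      rw [e4]
      have : 0 ≤ mu j ^ 3 / (5 * √(A (mu j) (z j) x) ^ 5) := by positivity
      linarith
    have h4 : ∑ l ∈ (Finset.range k).erase j,
        mu j ^ 3 / Dd mu z l j * (1 / (Dd mu z l j + √(A (mu l) (z l) x)) ^ 4)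
        ≤ ∑ l ∈ (Finset.range k).erase j, 4 * (mu j ^ 2 / (A (mu j) (z j) x) ^ 2) := by
      refine Finset.sum_le_sum fun l hl => ?_
      have hlk : l < k := Finset.mem_range.1 (Finset.mem_of_mem_erase hl)
      exact ST_W_le hmj (hmu l hlk) (z j) (z l) x rfl
    rw [Finset.sum_const, nsmul_eq_mul] at h4
    have h5 : (((Finset.range k).erase j).card : ℝ) * (4 * (mu j ^ 2 / (A (mu j) (z j) x) ^ 2))
        ≤ k * (4 * (mu j ^ 2 / (A (mu j) (z j) x) ^ 2)) := by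
      refine mul_le_mul_of_nonneg_right ?_ (by positivity)
      have : ((Finset.range k).erase j).card ≤ k :=
        (Finset.card_erase_le).trans (by simp)
      exact_mod_cast this
    have h6 : (1 + 8 * (k : ℝ)) * (mu j ^ 2 / √(A (mu j) (z j) x) ^ 4
        - mu j ^ 3 / (5 * √(A (mu j) (z j) x) ^ 5))
        ≤ (1 + 8 * k) * (mu j ^ 2 / A (mu j) (z j) x ^ 2) :=
      mul_le_mul_of_nonneg_left h3 (by positivity)
    have h7 : mu j ^ 2 / A (mu j) (z j) x ^ 2 ≤ U (mu j) (z j) x := by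
      unfold U
      have : 0 ≤ mu j ^ 2 / A (mu j) (z j) x ^ 2 := by positivity
      have e : 24 * mu j ^ 2 / A (mu j) (z j) x ^ 2 = 24 * (mu j ^ 2 / A (mu j) (z j) x ^ 2) := by
        ring
      rw [e]; linarith
    have h8 : (1 + 12 * (k : ℝ)) * (mu j ^ 2 / A (mu j) (z j) x ^ 2)
        ≤ (1 + 12 * k) * U (mu j) (z j) x := mul_le_mul_of_nonneg_left h7 (by positivity)
    linarith
  have h9 := Finset.sum_le_sum h2
  rw [← Finset.mul_sum] at h9
  have h10 : 0 ≤ ∑ l ∈ Finset.range k, U (mu l) (z l) x := by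
    refine Finset.sum_nonneg fun l hl => ?_
    have hA := A_pos (hmu l (Finset.mem_range.1 hl)) (z l) x
    unfold U; positivity
  have hk : (0 : ℝ) ≤ k := by positivity
  nlinarith

theorem ST_sq_sum (k : ℕ) (a : ℝ) (f : ℕ → ℝ) :
    (a + ∑ j ∈ Finset.range k, f j) ^ 2
      ≤ 2 * (k + 1) * (a ^ 2 + ∑ j ∈ Finset.range k, f j ^ 2) := by
  have h1 : (∑ j ∈ Finset.range k, f j) ^ 2 ≤ k * ∑ j ∈ Finset.range k, f j ^ 2 := by
    have := sq_sum_le_card_mul_sum_sq (s := Finset.range k) (f := f)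
    simpa using this
  have h2 : 0 ≤ ∑ j ∈ Finset.range k, f j ^ 2 := Finset.sum_nonneg fun j _ => sq_nonneg _
  have hk : (0 : ℝ) ≤ k := by positivity
  have h3 : (a + ∑ j ∈ Finset.range k, f j) ^ 2
      ≤ 2 * a ^ 2 + 2 * (∑ j ∈ Finset.range k, f j) ^ 2 := by
    nlinarith [sq_nonneg (a - ∑ j ∈ Finset.range k, f j)]
  nlinarith [mul_nonneg hk (sq_nonneg a)]

theorem step2 : ∀ (k : ℕ) (_ : 1 ≤ k) (Λ C C2 : ℝ), ∃ C3 : ℝ, 1 ≤ C3 ∧
    ∀ (p : E) (R : ℝ) (u : E → ℝ) (lam : ℝ) (mu : ℕ → ℝ) (z : ℕ → E),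
      0 < R → R ≤ 1 / 4 → 0 ≤ lam → lam ≤ Λ → ContDiff ℝ 2 u → Sol p R lam u →
      (∀ l < k, 0 < mu l ∧ mu l ≤ 1 / 2 ∧ ‖z l - p‖ ≤ R) →
      (∀ x ∈ closedBall p R,
        |u x| ≤ C * (F0 k mu z x + ∑ j ∈ Finset.range k, Fj k mu z j x)) →
      (∀ x, ‖x - p‖ = R → |u x| ≤ C2) →
      ∀ x ∈ closedBall p R, |u x| ≤ C3 * (1 + ∑ l ∈ Finset.range k, U (mu l) (z l) x) := by
  intro k hk Λ C C2
  set M0 : ℝ := |Λ| + (1 + |Λ|) * C ^ 2 * (2 * (k + 1)) with hM0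
  have hM0nn : 0 ≤ M0 := by positivity
  set C4 : ℝ := 4 * M0 + 1 + |C2| with hC4
  have hC4pos : 1 ≤ C4 := by have := abs_nonneg C2; linarith
  refine ⟨C4 * (2 + 12 * k), ?_, ?_⟩
  · have hk' : (0 : ℝ) ≤ k := by positivity
    nlinarith
  intro p R u lam mu z hR hR4 hlam hΛ hu hSol hmuz hF hbd
  have hmu : ∀ l < k, 0 < mu l := fun l hl => (hmuz l hl).1
  -- the comparison function
  set S : E → ℝ := fun y => C4 * STS k p mu z y with hS
  have hScd : ∀ x, ContDiffAt ℝ 2 S x := fun x =>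
    contDiffAt_const.mul (STS_sup k p mu z hmu x).cd
  have hnorm : ∀ x, ‖x - p‖ ≤ R → ∀ l < k, A (mu l) (z l) x ≤ 1 := by
    intro x hx l hl
    obtain ⟨h1, h2, h3⟩ := hmuz l hl
    have h4 : ‖x - z l‖ ≤ 1 / 2 := by
      have e : x - z l = (x - p) - (z l - p) := by abel
      rw [e]
      have := norm_sub_le (x - p) (z l - p)
      linarith
    unfold A
    have h5 : mu l ^ 2 ≤ (1 / 2) ^ 2 := pow_le_pow_left₀ h1.le h2 2
    have h6 : ‖x - z l‖ ^ 2 ≤ (1 / 2) ^ 2 := pow_le_pow_left₀ (norm_nonneg _) h4 2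
    norm_num at h5 h6
    linarith
  have hSlap : ∀ x ∈ ball p R, (Δ S) x < -(lam * |u x| + u x ^ 2) := by
    intro x hx
    have hxn : ‖x - p‖ ≤ R := by
      rw [← dist_eq_norm]; exact (mem_ball.1 hx).le
    have h1 := STS_lap k p mu z hmu x (hnorm x hxn)
    have h2 : (Δ S) x = C4 * (Δ (STS k p mu z)) x :=
      laplacian_smul C4 (STS_sup k p mu z hmu x).cd
    have hux := hF x (ball_subset_closedBall hx)
    have h3 : u x ^ 2 ≤ C ^ 2 * (2 * (k + 1) * (F0 k mu z x ^ 2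
        + ∑ j ∈ Finset.range k, Fj k mu z j x ^ 2)) := by
      have h4 : |u x| ^ 2 ≤ (C * (F0 k mu z x + ∑ j ∈ Finset.range k, Fj k mu z j x)) ^ 2 :=
        pow_le_pow_left₀ (abs_nonneg _) hux 2
      rw [sq_abs, mul_pow] at h4
      exact h4.trans (mul_le_mul_of_nonneg_left (ST_sq_sum k _ _) (sq_nonneg C))
    have h5 : F0 k mu z x ^ 2 + ∑ j ∈ Finset.range k, Fj k mu z j x ^ 2 ≤ STG k mu z x := by
      unfold STG
      have := ST_F0_sq k hk mu z hmu x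
      have h6 : ∑ j ∈ Finset.range k, Fj k mu z j x ^ 2 ≤ ∑ j ∈ Finset.range k,
        mu j ^ 3 / √(A (mu j) (z j) x) ^ 7 *
        (1 + ∑ l ∈ (Finset.range k).erase j, Dd mu z l j / √(A (mu l) (z l) x)) :=
        Finset.sum_le_sum fun j hj => ST_Fj_sq k hk mu z hmu j (Finset.mem_range.1 hj) x
      linarith
    have hG1 : 1 ≤ STG k mu z x := by
      unfold STG
      have a1 : 0 ≤ ∑ l ∈ Finset.range k, 1 / √(A (mu l) (z l) x) :=
        Finset.sum_nonneg fun l _ => by positivity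
      have a2 : 0 ≤ ∑ j ∈ Finset.range k, mu j ^ 3 / √(A (mu j) (z j) x) ^ 7 *
          (1 + ∑ l ∈ (Finset.range k).erase j, Dd mu z l j / √(A (mu l) (z l) x)) := by
        refine Finset.sum_nonneg fun j hj => ?_
        have hjk := Finset.mem_range.1 hj
        have hmj := hmu j hjk
        refine mul_nonneg (by positivity) (add_nonneg zero_le_one (Finset.sum_nonneg fun l _ => ?_))
        have := ST_Dd_pos (z := z) hmu hjk l
        positivity
      linarith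
    have h7 : u x ^ 2 ≤ C ^ 2 * (2 * (k + 1)) * STG k mu z x := by
      calc u x ^ 2 ≤ C ^ 2 * (2 * (k + 1) * (F0 k mu z x ^ 2
            + ∑ j ∈ Finset.range k, Fj k mu z j x ^ 2)) := h3
        _ ≤ C ^ 2 * (2 * (k + 1) * STG k mu z x) := by gcongr
        _ = C ^ 2 * (2 * (k + 1)) * STG k mu z x := by ring
    have h8 : lam * |u x| ≤ |Λ| * (1 + u x ^ 2) := by
      have a1 : lam ≤ |Λ| := hΛ.trans (le_abs_self Λ)
      have a2 : |u x| ≤ 1 + u x ^ 2 := by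
        nlinarith [sq_abs (u x), sq_nonneg (|u x| - 1), abs_nonneg (u x)]
      exact mul_le_mul a1 a2 (abs_nonneg _) (abs_nonneg _)
    have h9 : lam * |u x| + u x ^ 2 ≤ M0 * STG k mu z x := by
      have a1 : (1 + |Λ|) * u x ^ 2 ≤ (1 + |Λ|) * (C ^ 2 * (2 * (k + 1)) * STG k mu z x) :=
        mul_le_mul_of_nonneg_left h7 (by positivity)
      have a2 : |Λ| * 1 ≤ |Λ| * STG k mu z x := mul_le_mul_of_nonneg_left hG1 (abs_nonneg _)
      have a3 : M0 * STG k mu z x = |Λ| * STG k mu z x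
          + (1 + |Λ|) * (C ^ 2 * (2 * (k + 1)) * STG k mu z x) := by rw [hM0]; ring
      rw [a3]
      linarith
    have h10 : C4 * ((5 / 16) * STG k mu z x + 11) ≤ C4 * -(Δ (STS k p mu z)) x :=
      mul_le_mul_of_nonneg_left h1 (by linarith)
    have h11 : M0 * STG k mu z x ≤ C4 * ((5 / 16) * STG k mu z x) := by
      have : M0 ≤ C4 * (5 / 16) := by have := abs_nonneg C2; linarith
      have := mul_le_mul_of_nonneg_right this (by linarith : (0 : ℝ) ≤ STG k mu z x)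
      linarith
    rw [h2]
    linarith
  have hlapu : ∀ x ∈ ball p R, |(Δ u) x| ≤ lam * |u x| + u x ^ 2 := by
    intro x hx
    have h := hSol x hx
    have h1 : (Δ u) x = -(lam * u x + |u x| * u x) := by
      unfold nl at h; linarith
    rw [h1, abs_neg]
    refine (abs_add_le _ _).trans (le_of_eq ?_)
    rw [abs_mul, abs_mul, abs_abs, abs_of_nonneg hlam, ← sq, sq_abs]
  have hSge : ∀ x, ‖x - p‖ = R → |C2| ≤ S x := by
    intro x hx
    have h1 := STS_ge_one k p mu z hmu x (by rw [hx]; linarith)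
    have h2 : C4 * 1 ≤ C4 * STS k p mu z x := mul_le_mul_of_nonneg_left h1 (by linarith)
    have : S x = C4 * STS k p mu z x := rfl
    rw [this]
    linarith
  have hup : ∀ x ∈ closedBall p R, u x ≤ S x := by
    refine ST_max p R u S (fun x => hu.contDiffAt) hScd ?_ ?_
    · intro x hx
      have h1 := hSlap x hx
      have h2 := (abs_le.1 (hlapu x hx)).1
      linarith
    · intro x hx
      exact ((le_abs_self _).trans ((hbd x hx).trans (le_abs_self _))).trans (hSge x hx)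
  have hdown : ∀ x ∈ closedBall p R, -u x ≤ S x := by
    have hneg : ∀ x, (Δ (fun y => -u y)) x = -(Δ u) x := by
      intro x
      have : (Δ (-u)) = -(Δ u) := laplacian_neg
      exact congrFun this x
    refine ST_max p R (fun y => -u y) S (fun x => hu.contDiffAt.neg) hScd ?_ ?_
    · intro x hx
      rw [hneg]
      have h1 := hSlap x hx
      have h2 := (abs_le.1 (hlapu x hx)).2
      linarith
    · intro x hx
      exact ((neg_le_abs _).trans ((hbd x hx).trans (le_abs_self _))).trans (hSge x hx)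
  intro x hx
  have h1 : |u x| ≤ S x := abs_le.2 ⟨by have := hdown x hx; linarith, hup x hx⟩
  have h2 := STS_le k p mu z hmu x
  have h3 : S x ≤ C4 * ((2 + 12 * k) * (1 + ∑ l ∈ Finset.range k, U (mu l) (z l) x)) :=
    mul_le_mul_of_nonneg_left h2 (by linarith)
  linarith

end Pool.Helper4.BT
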